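import Pool.Agent.H54Z.FC.Main

/-!
# Tomkinson's question: the answer is yes

If `G` is an FC-group which is residually in the class of groups with finite derived subgroup,
then `G / Z(G)` is isomorphic to a subgroup of a restricted direct product of finite groups.
-/

set_option autoImplicit false

namespace Pool.Agent.Results.MP_d93556_al.AFullAnswer

theorem result (G : Type) [Group G]
    (hFC : ∀ x : G, (Subgroup.centralizer ({x} : Set G)).FiniteIndex)
    (hX : ∀ g : G, g ≠ 1 → ∃ (N : Subgroup G) (_ : N.Normal), g ∉ N ∧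
      Finite ↥(commutator (G ⧸ N))) :
    ∃ (ι : Type) (F : ι → Type) (_ : ∀ i, Group (F i)) (_ : ∀ i, Finite (F i))
      (f : (G ⧸ Subgroup.center G) →* ((i : ι) → F i)),
      Function.Injective f ∧ ∀ x, {i : ι | f x i ≠ 1}.Finite := by
  have hR : Pool.Agent.Helper316.FCX.ResX G := by
    intro g hg
    obtain ⟨N, hN, hgN, hfin⟩ := hX g hg
    exact ⟨N, hN, hgN, Set.toFinite _⟩
  exact (Pool.Agent.H54Z.FC.main (Pool.Agent.H54Z.FC.fcg_of_index hFC) hR).toProd

end Pool.Agent.Results.MP_d93556_al.AFullAnswer
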